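import Pool.Agent.U180.NS.Fin

/-!
# The discrepancy of sequences whose points are placed at random in given small cubes

Let cubes of side `1/n_k`, one for every index `i` with `2^k ≤ i < 2^(k+1)`, be given in `[0,1]^d`
and let one point be chosen uniformly and independently in each of them. For every choice of the
cubes, almost surely, for every large `k` one of `N = 2^k, 2^(k+1)` satisfies
`N D_N ≥ c √(2^k log n_k / n_k)`, already for cubes `[0,t]^d`. If the sides are at least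
`k^(2d-1) / 2^k` this gives `D_N ≥ c (log N)^d / N`, the inequality of the question.
-/

set_option autoImplicit false

namespace Pool.Agent.Results.MP_f4022e_nt.NoisySequences

open MeasureTheory Filter Pool.Agent.U180.NS

theorem result (d : ℕ) (hd : 1 ≤ d) : ∃ c : ℝ, 0 < c ∧
    ∀ (Ω : Type) [MeasurableSpace Ω] (P : Measure Ω) (u : ℕ → Ω → Fin d → ℝ) (n : ℕ → ℕ)
      (a : ℕ → Fin d → ℝ), IsNoise P u → (∀ k, 1 ≤ n k) →
      (∀ i j, 0 ≤ a i j ∧ a i j + 1 / n (Nat.log 2 i) ≤ 1) →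
      (∀ᵐ ω ∂P, ∀ i j, 0 ≤ pts n a u ω i j ∧ pts n a u ω i j < 1) ∧
      ((∀ᶠ k : ℕ in atTop, 4 * Real.log k ^ 2 ≤ n k ∧ n k * Real.log (n k) ≤ c * 2 ^ k) →
        ∀ᵐ ω ∂P, ∀ᶠ k : ℕ in atTop, ∃ N : ℕ, (N = 2 ^ k ∨ N = 2 ^ (k + 1)) ∧
          (∃ t : ℝ, 0 ≤ t ∧ t < 1 ∧ c * Real.sqrt (2 ^ k * Real.log (n k) / n k) ≤
            |(countIn (pts n a u ω) N (cube d t) : ℝ) - N * t ^ d|) ∧
          ENNReal.ofReal (c * Real.sqrt (2 ^ k * Real.log (n k) / n k) / N) ≤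
            discrepancy (pts n a u ω) N) ∧
      (2 ≤ d →
        (∀ᶠ k : ℕ in atTop, 4 * Real.log k ^ 2 ≤ n k ∧ n k * (k : ℝ) ^ (2 * d - 1) ≤ 2 ^ k) →
        ∀ᵐ ω ∂P, ∀ᶠ k : ℕ in atTop, ∃ N : ℕ, (N = 2 ^ k ∨ N = 2 ^ (k + 1)) ∧
          ENNReal.ofReal (c * Real.log N ^ d / N) ≤ discrepancy (pts n a u ω) N) := by
  obtain ⟨c, hc0, hc1, H⟩ := main hd
  refine ⟨c / 2, by positivity, fun Ω _ P u n a hu hn ha => ⟨pts_mem hu n a hn ha, fun hk => ?_,
    fun hd2 hk => ?_⟩⟩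
  · have hk' : ∀ᶠ k : ℕ in atTop, 4 * Real.log k ^ 2 ≤ n k ∧ n k * Real.log (n k) ≤ c * 2 ^ k := by
      filter_upwards [hk] with k h
      refine ⟨h.1, h.2.trans ?_⟩
      have : (0 : ℝ) < 2 ^ k := by positivity
      nlinarith
    filter_upwards [H Ω P u n a hu (fun i j => (ha i j).1) hk'] with ω hω
    filter_upwards [hω] with k h
    obtain ⟨N, hN, t, ht0, ht1, ht⟩ := h
    have hN0 : 0 < N := by
      rcases hN with rfl | rfl <;> positivity
    have h1 : c / 2 * Real.sqrt (2 ^ k * Real.log (n k) / n k) ≤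
        |(countIn (pts n a u ω) N (cube d t) : ℝ) - N * t ^ d| := by
      refine le_trans ?_ ht
      have := Real.sqrt_nonneg (2 ^ k * Real.log (n k) / n k)
      nlinarith
    exact ⟨N, hN, ⟨t, ht0, ht1, h1⟩, to_disc _ N hN0 ht0 ht1 h1⟩
  · have hs := second hd2 hc0 n hk
    filter_upwards [H Ω P u n a hu (fun i j => (ha i j).1) (hs.mono fun k h => h.1)] with ω hω
    filter_upwards [hω, hs] with k h h2
    obtain ⟨N, hN, t, ht0, ht1, ht⟩ := h
    have hN0 : 0 < N := by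
      rcases hN with rfl | rfl <;> positivity
    exact ⟨N, hN, to_disc _ N hN0 ht0 ht1 ((h2.2 N hN).trans ht)⟩

end Pool.Agent.Results.MP_f4022e_nt.NoisySequences
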