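import Pool.Agent.U49.SD.Final
import Pool.Agent.H739R3.SQ.D

set_option autoImplicit false

namespace Pool.Agent.Results.MP_f4022e_nt.SequenceSixth

open MeasureTheory Filter

/-- `B` is an axis-parallel box contained in `[0,1)^d`: a product of subintervals of `[0,1)` of any
kind (open, closed, half-open; `Set.OrdConnected` subsets of `ℝ` are exactly the intervals). -/
def IsBox {d : ℕ} (B : Set (Fin d → ℝ)) : Prop :=
  ∃ I : Fin d → Set ℝ, (∀ i, (I i).OrdConnected ∧ I i ⊆ Set.Ico 0 1) ∧ B = Set.univ.pi I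

open Classical in
/-- `A_N(B)`: the number of indices `0 ≤ n < N` with `z_n ∈ B`. -/
noncomputable def countIn {d : ℕ} (z : ℕ → Fin d → ℝ) (N : ℕ) (B : Set (Fin d → ℝ)) : ℕ :=
  ((Finset.range N).filter (fun n => z n ∈ B)).card

/-- `D_N`: the (extreme) discrepancy of the first `N` points of the sequence `z`, the supremum of
`|A_N(B) / N - λ(B)|` over all axis-parallel boxes `B` contained in `[0,1)^d`. -/
noncomputable def discrepancy {d : ℕ} (z : ℕ → Fin d → ℝ) (N : ℕ) : ENNReal :=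
  ⨆ (B : Set (Fin d → ℝ)) (_ : IsBox B),
    ENNReal.ofReal |(countIn z N B : ℝ) / N - (volume B).toReal|

lemma disc_le {d : ℕ} {z : ℕ → Fin d → ℝ} {N : ℕ} {E : ℝ} (hN : 0 < N)
    (hz : ∀ n j, 0 ≤ z n j ∧ z n j < 1) (h : H739SQ.SB z N E) :
    discrepancy z N ≤ ENNReal.ofReal (2 ^ d * E / N) := by
  classical
  have hN0 : (0:ℝ) < N := by exact_mod_cast hN
  refine iSup₂_le ?_
  rintro B ⟨I, hI, rfl⟩
  apply ENNReal.ofReal_le_ofReal
  have h1 := H739SQ.all_boxes (fun n j => (hz n j).2) h I hI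
  have h2 : H739SQ.cU z N I = (countIn z N (Set.univ.pi I) : ℝ) := by
    unfold H739SQ.cU countIn
    rw [Finset.card_filter]
    push_cast
    refine Finset.sum_congr rfl fun k _ => ?_
    simp only [Set.mem_univ_pi]
  have h3 : (volume (Set.univ.pi I)).toReal = ∏ j, (volume (I j)).toReal := by
    rw [volume_pi_pi, ENNReal.toReal_prod]
  rw [h2] at h1
  rw [h3]
  have e : (countIn z N (Set.univ.pi I) : ℝ) / N - ∏ j, (volume (I j)).toReal =
      ((countIn z N (Set.univ.pi I) : ℝ) - N * ∏ j, (volume (I j)).toReal) / N := by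
    field_simp
  rw [e, abs_div, abs_of_pos hN0]
  exact div_le_div_of_nonneg_right h1 hN0.le

lemma one_lt_log_three : 1 < Real.log 3 := by
  rw [Real.lt_log_iff_exp_lt (by norm_num)]
  have h1 := Real.exp_one_lt_d9
  linarith

lemma one_lt_log {N : ℕ} (hN : 3 ≤ N) : 1 < Real.log N := by
  refine one_lt_log_three.trans_le (Real.log_le_log (by norm_num) (by exact_mod_cast hN))

/-- power saving for sequences, dimension `n + 1 ≥ 2` -/
theorem seq_pow (n : ℕ) (hn : 1 ≤ n) : ∃ z : ℕ → Fin (n + 1) → ℝ,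
    (∀ k j, 0 ≤ z k j ∧ z k j < 1) ∧
    ∃ C : ℝ, 0 < C ∧ ∀ N : ℕ, 3 ≤ N → discrepancy z N ≤
      ENNReal.ofReal (C * (Real.log N) ^ ((n:ℝ) + 1 - U49.sav n) *
        (Real.log (Real.log N)) ^ 2 / N) := by
  obtain ⟨C, hC, h⟩ := U49.star_open n hn
  have hsav : 0 ≤ U49.sav n ∧ U49.sav n ≤ 1 := by
    unfold U49.sav
    split_ifs <;> norm_num
  obtain ⟨κ, hκ⟩ : ∃ κ : ℝ, κ = U49.sav n := ⟨_, rfl⟩
  rw [← hκ] at h hsav ⊢
  have hn1 : (1:ℝ) ≤ n := by exact_mod_cast hn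
  have he0 : (1:ℝ) ≤ (n:ℝ) + 1 - κ := by linarith [hsav.2]
  have hl4 : Real.log 4 ≤ 3 := by
    have := Real.log_le_sub_one_of_pos (show (0:ℝ) < 4 by norm_num)
    linarith
  have hl40 : 0 ≤ Real.log 4 := Real.log_nonneg (by norm_num)
  obtain ⟨C', hC', z, hz, hzE⟩ := H739SQ.seq_of_sets (d := n + 1)
    (fun t => t ^ ((n:ℝ) + 1 - κ) * (1 + Real.log t) ^ 2) (4 ^ ((n:ℝ) + 1 - κ) * 4 ^ 2) C hC.le
    (by positivity)
    (fun t ht => by
      have ht0 : 0 < t := by linarith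
      have hlt : 0 ≤ Real.log t := Real.log_nonneg (by linarith)
      show t ^ ((n:ℝ) + 1 - κ) * (1 + Real.log t) ^ 2 ≤
        1 / 2 * ((4 * t) ^ ((n:ℝ) + 1 - κ) * (1 + Real.log (4 * t)) ^ 2)
      rw [Real.mul_rpow (by norm_num) (by linarith), Real.log_mul (by norm_num) ht0.ne']
      have h1 : (2:ℝ) ≤ 4 ^ ((n:ℝ) + 1 - κ) := by
        calc (2:ℝ) ≤ 4 ^ (1:ℝ) := by norm_num
          _ ≤ 4 ^ ((n:ℝ) + 1 - κ) := Real.rpow_le_rpow_of_exponent_le (by norm_num) he0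
      have h2 : 0 ≤ t ^ ((n:ℝ) + 1 - κ) := Real.rpow_nonneg (by linarith) _
      have h3 : (1 + Real.log t) ^ 2 ≤ (1 + (Real.log 4 + Real.log t)) ^ 2 :=
        pow_le_pow_left₀ (by linarith) (by linarith) 2
      calc t ^ ((n:ℝ) + 1 - κ) * (1 + Real.log t) ^ 2
          ≤ t ^ ((n:ℝ) + 1 - κ) * (1 + (Real.log 4 + Real.log t)) ^ 2 :=
            mul_le_mul_of_nonneg_left h3 h2
        _ = 1 / 2 * (2 * t ^ ((n:ℝ) + 1 - κ) * (1 + (Real.log 4 + Real.log t)) ^ 2) := by ring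
        _ ≤ 1 / 2 * (4 ^ ((n:ℝ) + 1 - κ) * t ^ ((n:ℝ) + 1 - κ) *
            (1 + (Real.log 4 + Real.log t)) ^ 2) := by
            refine mul_le_mul_of_nonneg_left ?_ (by norm_num)
            exact mul_le_mul_of_nonneg_right (mul_le_mul_of_nonneg_right h1 h2) (sq_nonneg _))
    (fun t s ht hs hts => by
      have hls : 0 ≤ Real.log s := Real.log_nonneg hs.le
      have hlt : 0 ≤ Real.log t := Real.log_nonneg (by linarith)
      show t ^ ((n:ℝ) + 1 - κ) * (1 + Real.log t) ^ 2 ≤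
        4 ^ ((n:ℝ) + 1 - κ) * 4 ^ 2 * (s ^ ((n:ℝ) + 1 - κ) * (1 + Real.log s) ^ 2)
      have h1 : t ^ ((n:ℝ) + 1 - κ) ≤ 4 ^ ((n:ℝ) + 1 - κ) * s ^ ((n:ℝ) + 1 - κ) := by
        rw [← Real.mul_rpow (by norm_num) (by linarith)]
        exact Real.rpow_le_rpow (by linarith) hts (by linarith)
      have h2 : 1 + Real.log t ≤ 4 * (1 + Real.log s) := by
        have h3 : Real.log t ≤ Real.log 4 + Real.log s := by
          rw [← Real.log_mul (by norm_num) (by linarith)]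
          exact Real.log_le_log (by linarith) hts
        linarith
      have h3 : (1 + Real.log t) ^ 2 ≤ (4 * (1 + Real.log s)) ^ 2 :=
        pow_le_pow_left₀ (by linarith) h2 2
      have h4 : 0 ≤ s ^ ((n:ℝ) + 1 - κ) := Real.rpow_nonneg (by linarith) _
      calc t ^ ((n:ℝ) + 1 - κ) * (1 + Real.log t) ^ 2
          ≤ (4 ^ ((n:ℝ) + 1 - κ) * s ^ ((n:ℝ) + 1 - κ)) * (4 * (1 + Real.log s)) ^ 2 :=
            mul_le_mul h1 h3 (sq_nonneg _) (by positivity)
        _ = _ := by ring)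
    (fun s hs => by
      have h1 : 1 ≤ s ^ ((n:ℝ) + 1 - κ) := Real.one_le_rpow hs.le (by linarith)
      have h2 : (1:ℝ) ≤ (1 + Real.log s) ^ 2 :=
        one_le_pow₀ (by linarith [Real.log_nonneg hs.le])
      nlinarith)
    (fun M hM => by
      obtain ⟨ξ, hξ, hb⟩ := h M hM
      refine ⟨ξ, hξ, fun x hx0 hx1 => (hb x hx0 hx1).trans ?_⟩
      have hs1 := one_lt_log hM
      have hll : 0 ≤ Real.log (Real.log M) := Real.log_nonneg hs1.le
      have h1 : 0 ≤ Real.log M ^ ((n:ℝ) + 1 - κ) := Real.rpow_nonneg (by linarith) _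
      have h2 : Real.log (Real.log M) ^ 2 ≤ (1 + Real.log (Real.log M)) ^ 2 :=
        pow_le_pow_left₀ hll (by linarith) 2
      show C * Real.log M ^ ((n:ℝ) + 1 - κ) * Real.log (Real.log M) ^ 2 ≤
        C * (Real.log M ^ ((n:ℝ) + 1 - κ) * (1 + Real.log (Real.log M)) ^ 2)
      rw [mul_assoc]
      exact mul_le_mul_of_nonneg_left (mul_le_mul_of_nonneg_left h2 h1) hC.le)
  obtain ⟨b, hb⟩ : ∃ b : ℝ, b = Real.log (Real.log 3) := ⟨_, rfl⟩
  have hb0 : 0 < b := by rw [hb]; exact Real.log_pos one_lt_log_three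
  refine ⟨z, hz, 2 ^ (n + 1) * ((C' + 1) * (1 / b + 1) ^ 2), by positivity, fun N hN => ?_⟩
  refine (disc_le (by omega) hz (hzE N hN)).trans ?_
  apply ENNReal.ofReal_le_ofReal
  have hN0 : (0:ℝ) < N := by exact_mod_cast (by omega : 0 < N)
  apply div_le_div_of_nonneg_right _ hN0.le
  have hs1 := one_lt_log hN
  have hll : b ≤ Real.log (Real.log N) := by
    rw [hb]
    exact Real.log_le_log (by linarith [one_lt_log_three])
      (Real.log_le_log (by norm_num) (by exact_mod_cast hN))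
  have h1 : 1 + Real.log (Real.log N) ≤ (1 / b + 1) * Real.log (Real.log N) := by
    have : 1 ≤ 1 / b * Real.log (Real.log N) := by
      rw [one_div, ← div_eq_inv_mul, le_div_iff₀ hb0]
      linarith
    linarith
  have h2 : (1 + Real.log (Real.log N)) ^ 2 ≤ ((1 / b + 1) * Real.log (Real.log N)) ^ 2 :=
    pow_le_pow_left₀ (by linarith) h1 2
  have h3 : 0 ≤ Real.log N ^ ((n:ℝ) + 1 - κ) := Real.rpow_nonneg (by linarith) _
  show 2 ^ (n + 1) * (C' * (Real.log N ^ ((n:ℝ) + 1 - κ) * (1 + Real.log (Real.log N)) ^ 2)) ≤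
    2 ^ (n + 1) * ((C' + 1) * (1 / b + 1) ^ 2) * Real.log N ^ ((n:ℝ) + 1 - κ) *
      Real.log (Real.log N) ^ 2
  calc 2 ^ (n + 1) * (C' * (Real.log N ^ ((n:ℝ) + 1 - κ) * (1 + Real.log (Real.log N)) ^ 2))
      ≤ 2 ^ (n + 1) * ((C' + 1) * (Real.log N ^ ((n:ℝ) + 1 - κ) *
          ((1 / b + 1) * Real.log (Real.log N)) ^ 2)) := by
        apply mul_le_mul_of_nonneg_left _ (by positivity)
        apply mul_le_mul (by linarith) (mul_le_mul_of_nonneg_left h2 h3) (by positivity)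
          (by linarith)
    _ = _ := by ring

/-- a power saving beats every multiple of a slightly larger power -/
lemma eventually_lt {D : ℕ → ENNReal} {C a b : ℝ} (hC : 0 < C) (hab : a < b)
    (h : ∀ N : ℕ, 3 ≤ N → D N ≤ ENNReal.ofReal (C * (Real.log N) ^ a *
      (Real.log (Real.log N)) ^ 2 / N)) :
    ∀ c : ℝ, 0 < c → ∀ᶠ N : ℕ in atTop, D N < ENNReal.ofReal (c * (Real.log N) ^ b / N) := by
  intro c hc
  have t1 : Tendsto (fun N : ℕ => Real.log (N:ℝ)) atTop atTop :=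
    Real.tendsto_log_atTop.comp tendsto_natCast_atTop_atTop
  have h0 : Tendsto (fun x : ℝ => Real.log x ^ 2 / x ^ (b - a)) atTop (nhds 0) := by
    have h1 : (fun x : ℝ => Real.log x ^ (2:ℝ)) =o[atTop] fun x => x ^ (b - a) :=
      isLittleO_log_rpow_rpow_atTop 2 (by linarith)
    have h2 := h1.tendsto_div_nhds_zero
    refine h2.congr fun x => ?_
    norm_num
  have h1 := (h0.comp t1).eventually (gt_mem_nhds (show (0:ℝ) < c / C by positivity))
  filter_upwards [h1, eventually_ge_atTop 3] with N h2 h3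
  refine (h N h3).trans_lt ?_
  have hN0 : (0:ℝ) < N := by exact_mod_cast (by omega : 0 < N)
  have hs1 := one_lt_log h3
  have hs0 : 0 < Real.log N := by linarith
  rw [ENNReal.ofReal_lt_ofReal_iff (by positivity)]
  apply div_lt_div_of_pos_right _ hN0
  have h4 : 0 < Real.log N ^ a := Real.rpow_pos_of_pos hs0 _
  have h6 : 0 < Real.log N ^ (b - a) := Real.rpow_pos_of_pos hs0 _
  have h5 : Real.log N ^ b = Real.log N ^ (b - a) * Real.log N ^ a := by
    rw [← Real.rpow_add hs0]; congr 1; ring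
  have h7 : Real.log (Real.log N) ^ 2 / Real.log N ^ (b - a) < c / C := h2
  rw [div_lt_div_iff₀ h6 hC] at h7
  rw [h5]
  calc C * Real.log N ^ a * Real.log (Real.log N) ^ 2
      = (Real.log (Real.log N) ^ 2 * C) * Real.log N ^ a := by ring
    _ < (c * Real.log N ^ (b - a)) * Real.log N ^ a := mul_lt_mul_of_pos_right h7 h4
    _ = _ := by ring

/-- **Power saving `1/6` for infinite sequences.** Put `e = 1/7` if `d = 2` and `e = 1/6` if
`d ≥ 3`. There are `C > 0` and a sequence in `[0,1)^d` whose extreme discrepancy satisfies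
`D_N ≤ C (log N)^(d - e) (log log N)^2 / N` for all `N ≥ 3`. Consequently, for every `κ < e`, no
`c > 0` has the property that all sequences in `[0,1)^d` satisfy `D_N ≥ c (log N)^(d - κ) / N` for
infinitely many `N`. -/
theorem result : ∀ d : ℕ, 2 ≤ d →
    (∃ z : ℕ → Fin d → ℝ, (∀ n i, z n i ∈ Set.Ico (0:ℝ) 1) ∧
      ∃ C : ℝ, 0 < C ∧ ∀ N : ℕ, 3 ≤ N → discrepancy z N ≤
        ENNReal.ofReal (C * (Real.log N) ^ ((d:ℝ) - (if d = 2 then 1 / 7 else 1 / 6)) *
          (Real.log (Real.log N)) ^ 2 / N)) ∧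
    (∀ κ : ℝ, κ < (if d = 2 then 1 / 7 else 1 / 6) →
      ¬ ∃ c : ℝ, 0 < c ∧ ∀ z : ℕ → Fin d → ℝ, (∀ n i, z n i ∈ Set.Ico (0:ℝ) 1) →
        ∃ᶠ N : ℕ in atTop, ENNReal.ofReal (c * (Real.log N) ^ ((d:ℝ) - κ) / N) ≤
          discrepancy z N) := by
  intro d hd
  obtain ⟨n, rfl⟩ : ∃ n, d = n + 1 := ⟨d - 1, by omega⟩
  obtain ⟨z, hz, C, hC, h⟩ := seq_pow n (by omega)
  have hz' : ∀ n i, z n i ∈ Set.Ico (0:ℝ) 1 := fun k i => ⟨(hz k i).1, (hz k i).2⟩
  have hc : (((n + 1 : ℕ) : ℝ)) = (n:ℝ) + 1 := by push_cast; rfl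
  have hs : U49.sav n = (if n + 1 = 2 then 1 / 7 else 1 / 6) := by
    unfold U49.sav
    simp only [show (n = 1) = (n + 1 = 2) from propext ⟨fun h => by omega, fun h => by omega⟩]
  rw [hs] at h
  have ev1 : ∀ κ : ℝ, κ < (if n + 1 = 2 then 1 / 7 else 1 / 6) → ∀ c : ℝ, 0 < c →
      ∀ᶠ N : ℕ in atTop,
      discrepancy z N < ENNReal.ofReal (c * (Real.log N) ^ (((n + 1 : ℕ) : ℝ) - κ) / N) :=
    fun κ hκ => eventually_lt hC (by rw [hc]; linarith) h
  refine ⟨⟨z, hz', C, hC, fun N hN => ?_⟩, ?_⟩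
  · rw [hc]
    exact h N hN
  · rintro κ hκ ⟨c, hc, h'⟩
    obtain ⟨N, h5, h6⟩ := ((h' z hz').and_eventually (ev1 κ hκ c hc)).exists
    exact absurd h6 (not_lt.2 h5)

end Pool.Agent.Results.MP_f4022e_nt.SequenceSixth
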